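import Mathlib

/-!
# MP_b1d8d5_co: a (3,2,1)-conjugate-orthogonal idempotent Latin square of order 12

There is an idempotent quasigroup of order 12 that is orthogonal to its (3,2,1)-conjugate.
It was found with a SAT solver under the assumption that the permutation
`(0 1 2 3 4 5)(6 7 8 9 10 11)` is an automorphism. Its multiplication table is
```
 0  4  9  6  3  7  8 11  1 10  2  5
 8  1  5 10  7  4  0  9  6  2 11  3
 5  9  2  0 11  8  4  1 10  7  3  6
 9  0 10  3  1  6  7  5  2 11  8  4
 7 10  1 11  4  2  5  8  0  3  6  9
 3  8 11  2  6  5 10  0  9  1  4  7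
 2  5  7  4  8 11  6 10  3  0  9  1
 6  3  0  8  5  9  2  7 11  4  1 10
10  7  4  1  9  0 11  3  8  6  5  2
 1 11  8  5  2 10  3  6  4  9  7  0
11  2  6  9  0  3  1  4  7  5 10  8
 4  6  3  7 10  1  9  2  5  8  0 11
```
`tab` and `tabC` are the tables of the quasigroup and of its (3,2,1)-conjugate, stored as numbers
in base 12: the entry in row `i` and column `j` is the digit of `12 ^ (12 * i + j)`.
-/

namespace Pool.Agent.Results.MP_b1d8d5_co.Order12

/-- A quasigroup: all equations `a ∘ x = b` and `x ∘ a = b` have exactly one solution. -/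
def IsQuasigroup {S : Type} (f : S → S → S) : Prop :=
  ∀ a b : S, (∃! x, f a x = b) ∧ (∃! x, f x a = b)

/-- `g` is the (3,2,1)-conjugate of `f`: `g z y = x` if and only if `f x y = z`. -/
def IsConj321 {S : Type} (f g : S → S → S) : Prop :=
  ∀ x y z : S, g z y = x ↔ f x y = z

/-- Orthogonality of two quasigroups, as in the problem file. -/
def Orthogonal {S : Type} (f g : S → S → S) : Prop :=
  ¬ ∃ a b c d : S, a ≠ b ∧ c ≠ d ∧ f a c = f b d ∧ g a c = g b d

def tab : ℕ := 232604247076238810994281423825347945793173083230259755198899645692829624578681893625883306514416853462109114247405455818147457218428997915224479201039971520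

def tabC : ℕ := 233648986345056073976919275433745815064433404279204461804192703002436450262634675184915309682077850017222643336205185338597697935015603827844544321814064020

/-- Entry of a table in base 12. -/
def look (t : ℕ) (i j : Fin 12) : Fin 12 :=
  ⟨t / 12 ^ (12 * i.val + j.val) % 12, Nat.mod_lt _ (by norm_num)⟩

theorem idem : ∀ x : Fin 12, look tab x x = x := by decide +kernel

theorem conj1 : ∀ x y : Fin 12, look tabC (look tab x y) y = x := by decide +kernel

theorem conj2 : ∀ z y : Fin 12, look tab (look tabC z y) y = z := by decide +kernel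

theorem rowInj : ∀ a x y : Fin 12, look tab a x = look tab a y → x = y := by decide +kernel

theorem orth : ∀ a b c d : Fin 12, look tab a c = look tab b d →
    look tabC a c = look tabC b d → a = b ∧ c = d := by decide +kernel

/-- There is a (3,2,1)-COILS(12); moreover the map `(a, c) ↦ (a ∘ c, a ∘₃₂₁ c)` is a bijection. -/
theorem result : ∃ f g : Fin 12 → Fin 12 → Fin 12,
    IsQuasigroup f ∧ (∀ x, f x x = x) ∧ IsConj321 f g ∧ Orthogonal f g ∧
    Function.Bijective (fun p : Fin 12 × Fin 12 => (f p.1 p.2, g p.1 p.2)) := by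
  refine ⟨look tab, look tabC, ?_, idem, ?_, ?_, ?_⟩
  · intro a b
    constructor
    · obtain ⟨x, hx⟩ := (Finite.injective_iff_surjective.1
        (fun x y h => rowInj a x y h : Function.Injective (look tab a))) b
      exact ⟨x, hx, fun y hy => rowInj a y x (hy.trans hx.symm)⟩
    · refine ⟨look tabC b a, conj2 b a, fun y hy => ?_⟩
      have hy' : look tab y a = b := hy
      rw [← hy', conj1]
  · intro x y z
    constructor
    · rintro rfl
      exact conj2 z y
    · rintro rfl
      exact conj1 x y
  · rintro ⟨a, b, c, d, hab, -, h1, h2⟩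
    exact hab (orth a b c d h1 h2).1
  · refine Finite.injective_iff_bijective.1 ?_
    rintro ⟨a, c⟩ ⟨b, d⟩ h
    obtain ⟨h1, h2⟩ := Prod.mk.inj h
    obtain ⟨h3, h4⟩ := orth a b c d h1 h2
    rw [h3, h4]

end Pool.Agent.Results.MP_b1d8d5_co.Order12
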